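import Pool.Agent.Helper19.Un.D4Stmts

set_option autoImplicit false

/-!
# CELL: every point of `ℝ⁴` lies in a Delaunay cell of `D₄`
-/

namespace Pool.Agent.Helper19.Un

/-- from a centre and an orthonormal frame to the statement -/
theorem cell_main (z : Fin 4 → ℝ) (c : Fin 4 → ℝ) (f : Fin 4 → Fin 4 → ℝ)
    (v : Fin 4 × Bool → Fin 4 → ℤ)
    (hv1 : ∀ i k, (v (i, true) k : ℝ) = c k + f i k)
    (hv2 : ∀ i k, (v (i, false) k : ℝ) = c k - f i k)
    (h1 : ∀ i j, ∑ k, f i k * f j k = if i = j then 1 else 0)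
    (h2 : ∀ k l, ∑ i, f i k * f i l = if k = l then 1 else 0)
    (hev : ∀ j, Even (∑ i, v j i)) (x : Fin 4 → ℝ) (hx : ∀ i, x i = ∑ k, (z k - c k) * f i k)
    (hs : ∑ i, |x i| ≤ 1) :
    ∃ (v : Fin 4 × Bool → Fin 4 → ℤ) (x : Fin 4 → ℝ),
      Function.Injective v ∧ (∀ j, Even (∑ i, v j i)) ∧ ∑ i, |x i| ≤ 1 ∧
      ∀ i, sq z (v (i, true)) = 1 + ∑ j, x j ^ 2 - 2 * x i ∧
        sq z (v (i, false)) = 1 + ∑ j, x j ^ 2 + 2 * x i := by
  have hw : ∑ j, x j ^ 2 = ∑ k, (z k - c k) ^ 2 := by
    have e : ∑ j, x j ^ 2 = ∑ k, ∑ l, (z k - c k) * (z l - c l) * ∑ i, f i k * f i l := by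
      calc ∑ j, x j ^ 2 = ∑ j, ∑ k, ∑ l, ((z k - c k) * (z l - c l)) * (f j k * f j l) := by
            refine Finset.sum_congr rfl fun j _ => ?_
            rw [hx j, pow_two, Finset.sum_mul_sum]
            refine Finset.sum_congr rfl fun k _ => Finset.sum_congr rfl fun l _ => ?_
            ring
        _ = ∑ k, ∑ j, ∑ l, ((z k - c k) * (z l - c l)) * (f j k * f j l) := Finset.sum_comm
        _ = ∑ k, ∑ l, ∑ j, ((z k - c k) * (z l - c l)) * (f j k * f j l) :=
            Finset.sum_congr rfl fun k _ => Finset.sum_comm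
        _ = _ := by
            refine Finset.sum_congr rfl fun k _ => Finset.sum_congr rfl fun l _ => ?_
            rw [Finset.mul_sum]
    rw [e]
    refine Finset.sum_congr rfl fun k _ => ?_
    simp only [h2, mul_ite, mul_one, mul_zero, Finset.sum_ite_eq, Finset.mem_univ, if_true]
    ring
  refine ⟨v, x, ?_, hev, hs, ?_⟩
  · -- injectivity
    have key : ∀ i j : Fin 4, ∀ ε δ : ℝ, (ε = 1 ∨ ε = -1) → (δ = 1 ∨ δ = -1) →
        (∀ k, ε * f i k = δ * f j k) → i = j ∧ ε = δ := by
      intro i j ε δ hε hδ h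
      have e1 : ε * ∑ k, f i k * f i k = δ * ∑ k, f i k * f j k := by
        rw [Finset.mul_sum, Finset.mul_sum]
        refine Finset.sum_congr rfl fun k _ => ?_
        have := h k
        calc ε * (f i k * f i k) = f i k * (ε * f i k) := by ring
          _ = f i k * (δ * f j k) := by rw [this]
          _ = _ := by ring
      rw [h1, h1, if_pos rfl] at e1
      by_cases hij : i = j
      · rw [if_pos hij] at e1
        exact ⟨hij, by linarith⟩
      · rw [if_neg hij] at e1
        exfalso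
        rcases hε with h | h <;> rw [h] at e1 <;> norm_num at e1
    rintro ⟨i, b⟩ ⟨j, b'⟩ h
    have hk : ∀ k, ((v (i, b) k : ℤ) : ℝ) = (v (j, b') k : ℤ) := fun k => by rw [h]
    cases b <;> cases b'
    · obtain ⟨h3, -⟩ := key i j (-1) (-1) (Or.inr rfl) (Or.inr rfl) fun k => by
        have := hk k
        rw [hv2, hv2] at this
        linarith
      rw [h3]
    · obtain ⟨-, h4⟩ := key i j (-1) 1 (Or.inr rfl) (Or.inl rfl) fun k => by
        have := hk k
        rw [hv2, hv1] at this
        linarith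
      norm_num at h4
    · obtain ⟨-, h4⟩ := key i j 1 (-1) (Or.inl rfl) (Or.inr rfl) fun k => by
        have := hk k
        rw [hv1, hv2] at this
        linarith
      norm_num at h4
    · obtain ⟨h3, -⟩ := key i j 1 1 (Or.inl rfl) (Or.inl rfl) fun k => by
        have := hk k
        rw [hv1, hv1] at this
        linarith
      rw [h3]
  · intro i
    have hf : ∑ k, f i k * f i k = 1 := by rw [h1, if_pos rfl]
    constructor
    · unfold sq
      have : ∑ k, (z k - (v (i, true) k : ℝ)) ^ 2 =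
          ∑ k, ((z k - c k) ^ 2 - 2 * ((z k - c k) * f i k) + f i k * f i k) := by
        refine Finset.sum_congr rfl fun k _ => ?_
        rw [hv1]; ring
      rw [this, Finset.sum_add_distrib, Finset.sum_sub_distrib, ← Finset.mul_sum, hf, hw, hx i]
      ring
    · unfold sq
      have : ∑ k, (z k - (v (i, false) k : ℝ)) ^ 2 =
          ∑ k, ((z k - c k) ^ 2 + 2 * ((z k - c k) * f i k) + f i k * f i k) := by
        refine Finset.sum_congr rfl fun k _ => ?_
        rw [hv2]; ring
      rw [this, Finset.sum_add_distrib, Finset.sum_add_distrib, ← Finset.mul_sum, hf, hw, hx i]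
      ring

/-- the standard frame -/
theorem cell_std (z : Fin 4 → ℝ) (m : Fin 4 → ℤ) (hm : Odd (∑ i, m i))
    (hs : ∑ i, |z i - m i| ≤ 1) :
    ∃ (v : Fin 4 × Bool → Fin 4 → ℤ) (x : Fin 4 → ℝ),
      Function.Injective v ∧ (∀ j, Even (∑ i, v j i)) ∧ ∑ i, |x i| ≤ 1 ∧
      ∀ i, sq z (v (i, true)) = 1 + ∑ j, x j ^ 2 - 2 * x i ∧
        sq z (v (i, false)) = 1 + ∑ j, x j ^ 2 + 2 * x i := by
  refine cell_main z (fun k => m k) (fun i k => if i = k then 1 else 0)
    (fun j k => m k + (if j.2 then 1 else -1) * (if j.1 = k then 1 else 0)) ?_ ?_ ?_ ?_ ?_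
    (fun i => z i - m i) ?_ hs
  · intro i k; push_cast; simp
  · intro i k
    by_cases h : i = k <;> simp [h, sub_eq_add_neg]
  · intro i j; simp
  · intro i j; simp [eq_comm]
  · rintro ⟨i, b⟩
    have : ∑ k, (m k + (if (i, b).2 then 1 else -1) * (if (i, b).1 = k then (1 : ℤ) else 0)) =
        ∑ k, m k + (if b then 1 else -1) := by
      rw [Finset.sum_add_distrib, ← Finset.mul_sum]
      simp
    rw [this]
    rcases hm with ⟨r, hr⟩
    rw [hr]
    cases b
    · exact ⟨r, by simp; ring⟩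
    · exact ⟨r + 1, by simp; ring⟩
  · intro i; simp

theorem cell_sum4 {α : Type} [AddCommMonoid α] (g : Fin 4 → α) :
    ∑ i, g i = g 0 + g 1 + g 2 + g 3 := Fin.sum_univ_four g

theorem cell_abs_le {a b : ℝ} (h1 : a ≤ b) (h2 : -a ≤ b) : |a| ≤ b := abs_le'.2 ⟨h1, h2⟩

set_option maxHeartbeats 2000000 in
theorem st_CELL : ST_CELL := by
  intro z
  -- rounding
  obtain ⟨n, s, a, ha0, ha1, hs, hz⟩ : ∃ (n s : Fin 4 → ℤ) (a : Fin 4 → ℝ), (∀ k, 0 ≤ a k) ∧
      (∀ k, a k ≤ 1 / 2) ∧ (∀ k, s k = 1 ∨ s k = -1) ∧ ∀ k, z k = n k + s k * a k := by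
    refine ⟨fun k => round (z k), fun k => if 0 ≤ z k - round (z k) then 1 else -1,
      fun k => |z k - round (z k)|, fun k => abs_nonneg _, fun k => abs_sub_round _,
      fun k => ?_, fun k => ?_⟩
    · by_cases h : 0 ≤ z k - round (z k) <;> simp [h]
    · by_cases h : 0 ≤ z k - round (z k)
      · simp only [if_pos h, abs_of_nonneg h]; push_cast; ring
      · simp only [if_neg h, abs_of_neg (not_le.1 h)]; push_cast; ring
  have hs2 : ∀ k, (s k : ℝ) * s k = 1 := fun k => by
    rcases hs k with h | h <;> rw [h] <;> norm_num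
  have hsa : ∀ k, |(s k : ℝ)| = 1 := fun k => by
    rcases hs k with h | h <;> rw [h] <;> norm_num
  have e2 : ∀ k, (s k : ℝ) * s k * (1 / 4) = 1 / 4 := fun k => by rw [hs2 k]; ring
  have s0 := hs 0
  have s1 := hs 1
  have s2 := hs 2
  have s3 := hs 3
  have q0 := hs2 0
  have q1 := hs2 1
  have q2 := hs2 2
  have q3 := hs2 3
  have t0 : (s 0 : ℝ) * s 0 * a 0 = a 0 := by rw [q0, one_mul]
  have t1 : (s 1 : ℝ) * s 1 * a 1 = a 1 := by rw [q1, one_mul]
  have t2 : (s 2 : ℝ) * s 2 * a 2 = a 2 := by rw [q2, one_mul]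
  have t3 : (s 3 : ℝ) * s 3 * a 3 = a 3 := by rw [q3, one_mul]
  rcases Int.even_or_odd (∑ i, n i) with hn | hn
  · -- even sum
    by_cases hbig : ∃ m, a 0 + a 1 + a 2 + a 3 ≤ 2 * a m
    · obtain ⟨m, hm⟩ := hbig
      refine cell_std z (fun k => n k + if k = m then s m else 0) ?_ ?_
      · rw [Finset.sum_add_distrib]
        simp only [Finset.sum_ite_eq', Finset.mem_univ, if_true]
        obtain ⟨r, hr⟩ := hn
        rw [hr]
        rcases hs m with h | h
        · exact ⟨r, by rw [h]; ring⟩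
        · exact ⟨r - 1, by rw [h]; ring⟩
      · have e : ∀ k, |z k - ((n k + if k = m then s m else 0 : ℤ) : ℝ)| =
            if k = m then 1 - a m else a k := by
          intro k
          by_cases h : k = m
          · subst h
            simp only [if_true]
            rw [hz k]
            push_cast
            have : (n k : ℝ) + s k * a k - (n k + s k) = s k * (a k - 1) := by ring
            rw [this, abs_mul, hsa, one_mul, abs_of_nonpos (by linarith [ha1 k])]
            ring
          · simp only [if_neg h]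
            rw [hz k]
            push_cast
            have : (n k : ℝ) + s k * a k - (n k + 0) = s k * a k := by ring
            rw [this, abs_mul, hsa, one_mul, abs_of_nonneg (ha0 k)]
        simp only [e]
        rw [cell_sum4]
        fin_cases m <;> simp at hm ⊢ <;> linarith
    · push Not at hbig
      have b0 := hbig 0
      have b1 := hbig 1
      have b2 := hbig 2
      have b3 := hbig 3
      -- Hadamard frame
      refine cell_main z (fun k => n k + s k / 2)
        (![![s 0 / 2, s 1 / 2, s 2 / 2, s 3 / 2], ![s 0 / 2, s 1 / 2, -s 2 / 2, -s 3 / 2],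
          ![s 0 / 2, -s 1 / 2, s 2 / 2, -s 3 / 2], ![s 0 / 2, -s 1 / 2, -s 2 / 2, s 3 / 2]])
        (fun j => if j.2 then
          (![![n 0 + s 0, n 1 + s 1, n 2 + s 2, n 3 + s 3], ![n 0 + s 0, n 1 + s 1, n 2, n 3],
          ![n 0 + s 0, n 1, n 2 + s 2, n 3], ![n 0 + s 0, n 1, n 2, n 3 + s 3]] :
            Fin 4 → Fin 4 → ℤ) j.1 else
          (![![n 0, n 1, n 2, n 3], ![n 0, n 1, n 2 + s 2, n 3 + s 3],
          ![n 0, n 1 + s 1, n 2, n 3 + s 3], ![n 0, n 1 + s 1, n 2 + s 2, n 3]] :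
            Fin 4 → Fin 4 → ℤ) j.1) ?_ ?_ ?_ ?_ ?_
        (![(a 0 + a 1 + a 2 + a 3 - 2) / 2, (a 0 + a 1 - a 2 - a 3) / 2,
          (a 0 - a 1 + a 2 - a 3) / 2, (a 0 - a 1 - a 2 + a 3) / 2]) ?_ ?_
      · intro i k
        fin_cases i <;> fin_cases k <;> simp <;> ring
      · intro i k
        fin_cases i <;> fin_cases k <;> simp <;> ring
      · intro i j
        rw [cell_sum4]
        fin_cases i <;> fin_cases j <;> simp <;> linarith [q0, q1, q2, q3, t0, t1, t2, t3]
      · intro i j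
        rw [cell_sum4]
        fin_cases i <;> fin_cases j <;> simp <;> linarith [q0, q1, q2, q3, t0, t1, t2, t3]
      · rintro ⟨i, b⟩
        rw [cell_sum4] at hn ⊢
        rw [Int.even_iff] at hn ⊢
        cases b <;> fin_cases i <;> simp <;> omega
      · intro i
        rw [cell_sum4, hz 0, hz 1, hz 2, hz 3]
        fin_cases i <;> simp <;> linarith [q0, q1, q2, q3, t0, t1, t2, t3]
      · rw [cell_sum4]
        have p0 := ha1 0
        have p1 := ha1 1
        have p2 := ha1 2
        have p3 := ha1 3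
        have r0 := ha0 0
        have r1 := ha0 1
        have r2 := ha0 2
        have r3 := ha0 3
        simp
        rcases abs_cases ((a 0 + a 1 + a 2 + a 3 - 2) / 2) with h0 | h0 <;>
        rcases abs_cases ((a 0 + a 1 - a 2 - a 3) / 2) with h1 | h1 <;>
        rcases abs_cases ((a 0 - a 1 + a 2 - a 3) / 2) with h2 | h2 <;>
        rcases abs_cases ((a 0 - a 1 - a 2 + a 3) / 2) with h3 | h3 <;>
        rw [h0.1, h1.1, h2.1, h3.1] <;> linarith
  · -- odd sum
    by_cases hsum : a 0 + a 1 + a 2 + a 3 ≤ 1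
    · refine cell_std z n hn ?_
      have e : ∀ k, |z k - n k| = a k := by
        intro k
        rw [hz k]
        have : (n k : ℝ) + s k * a k - n k = s k * a k := by ring
        rw [this, abs_mul, hsa, one_mul, abs_of_nonneg (ha0 k)]
      simp only [e]
      rw [cell_sum4]
      exact hsum
    · push Not at hsum
      refine cell_main z (fun k => n k + s k / 2)
        (![![-s 0 / 2, s 1 / 2, s 2 / 2, s 3 / 2], ![s 0 / 2, -s 1 / 2, s 2 / 2, s 3 / 2],
          ![s 0 / 2, s 1 / 2, -s 2 / 2, s 3 / 2], ![s 0 / 2, s 1 / 2, s 2 / 2, -s 3 / 2]])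
        (fun j => if j.2 then
          (![![n 0, n 1 + s 1, n 2 + s 2, n 3 + s 3], ![n 0 + s 0, n 1, n 2 + s 2, n 3 + s 3],
          ![n 0 + s 0, n 1 + s 1, n 2, n 3 + s 3], ![n 0 + s 0, n 1 + s 1, n 2 + s 2, n 3]] :
            Fin 4 → Fin 4 → ℤ) j.1 else
          (![![n 0 + s 0, n 1, n 2, n 3], ![n 0, n 1 + s 1, n 2, n 3],
          ![n 0, n 1, n 2 + s 2, n 3], ![n 0, n 1, n 2, n 3 + s 3]] :
            Fin 4 → Fin 4 → ℤ) j.1) ?_ ?_ ?_ ?_ ?_
        (![(a 0 + a 1 + a 2 + a 3 - 1) / 2 - a 0, (a 0 + a 1 + a 2 + a 3 - 1) / 2 - a 1,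
          (a 0 + a 1 + a 2 + a 3 - 1) / 2 - a 2, (a 0 + a 1 + a 2 + a 3 - 1) / 2 - a 3]) ?_ ?_
      · intro i k
        fin_cases i <;> fin_cases k <;> simp <;> ring
      · intro i k
        fin_cases i <;> fin_cases k <;> simp <;> ring
      · intro i j
        rw [cell_sum4]
        fin_cases i <;> fin_cases j <;> simp <;> linarith [q0, q1, q2, q3, t0, t1, t2, t3]
      · intro i j
        rw [cell_sum4]
        fin_cases i <;> fin_cases j <;> simp <;> linarith [q0, q1, q2, q3, t0, t1, t2, t3]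
      · rintro ⟨i, b⟩
        rw [cell_sum4] at hn ⊢
        rw [Int.odd_iff] at hn
        rw [Int.even_iff]
        cases b <;> fin_cases i <;> simp <;> omega
      · intro i
        rw [cell_sum4, hz 0, hz 1, hz 2, hz 3]
        fin_cases i <;> simp <;> linarith [q0, q1, q2, q3, t0, t1, t2, t3]
      · rw [cell_sum4]
        have p0 := ha1 0
        have p1 := ha1 1
        have p2 := ha1 2
        have p3 := ha1 3
        have r0 := ha0 0
        have r1 := ha0 1
        have r2 := ha0 2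
        have r3 := ha0 3
        simp
        rcases abs_cases ((a 0 + a 1 + a 2 + a 3 - 1) / 2 - a 0) with h0 | h0 <;>
        rcases abs_cases ((a 0 + a 1 + a 2 + a 3 - 1) / 2 - a 1) with h1 | h1 <;>
        rcases abs_cases ((a 0 + a 1 + a 2 + a 3 - 1) / 2 - a 2) with h2 | h2 <;>
        rcases abs_cases ((a 0 + a 1 + a 2 + a 3 - 1) / 2 - a 3) with h3 | h3 <;>
        rw [h0.1, h1.1, h2.1, h3.1] <;> linarith

end Pool.Agent.Helper19.Un
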